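import Pool.Agent.V5helper88.TQ.Crit
set_option autoImplicit false

/-!
# Loops with generic radius: integral roots
-/

namespace Pool.Agent.V5helper88.TQ

open Polynomial Set

open Pool.Agent.N686.EL

open Pool.Agent.V5helper83.EQ (HasLoops)

variable {h : ℕ}

/-- `m ∏ (x² - b_i²)` -/
noncomputable def Fe (m : ℤ) (b : Fin h → ℤ) : ℂ[X] := C (m : ℂ) * ∏ i, (X ^ 2 - C ((b i : ℂ) ^ 2))

/-- `m x ∏ (x² - b_i²)` -/
noncomputable def Fo (m : ℤ) (b : Fin h → ℤ) : ℂ[X] :=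
  C (m : ℂ) * (X * ∏ i, (X ^ 2 - C ((b i : ℂ) ^ 2)))

/-- the integral points `b`, `-b` -/
def ie (b : Fin h → ℤ) : Fin (h + h) → ℤ := Fin.append b fun i => -b i

/-- the integral points `0`, `b`, `-b` -/
def io (b : Fin h → ℤ) : Fin (h + h + 1) → ℤ := Fin.cons 0 (ie b)

theorem ie_left (b : Fin h → ℤ) (i : Fin h) : ie b (Fin.castAdd h i) = b i :=
  Fin.append_left _ _ i

theorem ie_right (b : Fin h → ℤ) (i : Fin h) : ie b (Fin.natAdd h i) = -b i :=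
  Fin.append_right _ _ i

theorem ie_all {b : Fin h → ℤ} {q : ℤ → Prop} (h1 : ∀ i, q (b i)) (h2 : ∀ i, q (-b i))
    (j : Fin (h + h)) : q (ie b j) := by
  induction j using Fin.addCases with
  | left i =>
    rw [ie_left]
    exact h1 i
  | right i =>
    rw [ie_right]
    exact h2 i

theorem ie_inj {b : Fin h → ℤ} (h0 : ∀ i, b i ≠ 0) (hb : ∀ i j, b i ^ 2 = b j ^ 2 → i = j) :
    Function.Injective (ie b) := by
  unfold ie
  rw [Fin.append_injective_iff]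
  refine ⟨fun i j hij => hb i j (by rw [hij]), fun i j hij => hb i j ?_, fun i j hij => ?_⟩
  · rw [neg_injective hij]
  · have h1 : i = j := hb i j (by rw [hij, neg_sq])
    rw [← h1] at hij
    exact h0 i (self_eq_neg.1 hij)

theorem io_inj {b : Fin h → ℤ} (h0 : ∀ i, b i ≠ 0) (hb : ∀ i j, b i ^ 2 = b j ^ 2 → i = j) :
    Function.Injective (io b) := by
  unfold io
  rw [Fin.cons_injective_iff]
  refine ⟨?_, ie_inj h0 hb⟩
  rintro ⟨j, hj⟩
  exact ie_all (q := fun y => y ≠ 0) h0 (fun i => neg_ne_zero.2 (h0 i)) j hj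

theorem ie_prod {M : Type*} [CommMonoid M] (b : Fin h → ℤ) (f : ℤ → M) :
    ∏ j, f (ie b j) = ∏ i, (f (b i) * f (-b i)) := by
  rw [Fin.prod_univ_add, Finset.prod_mul_distrib]
  simp only [ie_left, ie_right]

theorem Fe_eq (m : ℤ) (b : Fin h → ℤ) : Fe m b = C (m : ℂ) * ∏ j, (X - C ((ie b j : ℤ) : ℂ)) := by
  unfold Fe
  rw [ie_prod b fun y => X - C (y : ℂ)]
  congr 1
  refine Finset.prod_congr rfl fun i _ => ?_
  rw [Int.cast_neg, C_neg, C_pow]
  ring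

theorem Fo_eq (m : ℤ) (b : Fin h → ℤ) : Fo m b = C (m : ℂ) * ∏ j, (X - C ((io b j : ℤ) : ℂ)) := by
  unfold Fo
  rw [Fin.prod_univ_succ]
  unfold io
  simp only [Fin.cons_zero, Fin.cons_succ, Int.cast_zero, C_0, sub_zero]
  rw [ie_prod b fun y => X - C (y : ℂ)]
  congr 2
  refine Finset.prod_congr rfl fun i _ => ?_
  rw [Int.cast_neg, C_neg, C_pow]
  ring

theorem crit_int {g : ℕ} (m : ℤ) (c : Fin (g + 1) → ℤ) (hc : Function.Injective c)
    (hh : (∃ i j, 17 ≤ |m| * (c i - c j)) ∨ (m ≠ 0 ∧ 5 ≤ g)) (x : ℂ)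
    (hx : (derivative (C (m : ℂ) * ∏ i, (X - C (c i : ℂ)))).eval x = 0) :
    3 * √2 < ‖(C (m : ℂ) * ∏ i, (X - C (c i : ℂ))).eval x - 2‖ +
      ‖(C (m : ℂ) * ∏ i, (X - C (c i : ℂ))).eval x + 2‖ := by
  have hmap : (C (m : ℚ) * ∏ i, (X - C (c i : ℚ))).map (algebraMap ℚ ℂ) =
      C (m : ℂ) * ∏ i, (X - C (c i : ℂ)) := by
    simp [Polynomial.map_prod]
  have h1 := crit_outside_int m c hc hh (algebraMap ℚ ℂ) x (by
    rw [← eval_map, ← derivative_map, hmap]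
    exact hx)
  rw [← eval_map, hmap] at h1
  exact h1

theorem natDegree_int {g : ℕ} {m : ℤ} (hm : m ≠ 0) (c : Fin g → ℤ) :
    (C (m : ℂ) * ∏ i, (X - C (c i : ℂ))).natDegree = g := by
  have h1 : (m : ℂ) ≠ 0 := by exact_mod_cast hm
  rw [natDegree_C_mul h1, natDegree_prod_of_monic _ _ fun i _ => monic_X_sub_C _]
  simp only [natDegree_X_sub_C, Finset.sum_const, Finset.card_univ, Fintype.card_fin, smul_eq_mul,
    mul_one]

/-- the condition for `m` and the `b i` -/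
def Cond (m : ℤ) (b : Fin h → ℤ) : Prop := m ≠ 0 ∧ (3 ≤ h ∨ ∃ i, 9 ≤ |m * b i|)

theorem seventeen {m a : ℤ} (h9 : 9 ≤ |m * a|) :
    17 ≤ |m| * (a - -a) ∨ 17 ≤ |m| * (-a - a) := by
  rw [abs_mul] at h9
  rcases le_total 0 a with ha | ha
  · left
    rw [abs_of_nonneg ha] at h9
    nlinarith
  · right
    rw [abs_of_nonpos ha] at h9
    nlinarith

theorem cast_sq_inj {b : Fin h → ℤ} (hb : ∀ i j, b i ^ 2 = b j ^ 2 → i = j) (i j : Fin h)
    (hij : (b i : ℂ) ^ 2 = (b j : ℂ) ^ 2) : i = j := hb i j (by exact_mod_cast hij)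

/-- **L3, critical values, even degree.** -/
theorem crit_Fe {m : ℤ} {b : Fin h → ℤ} (h0 : ∀ i, b i ≠ 0)
    (hb : ∀ i j, b i ^ 2 = b j ^ 2 → i = j) (hc : Cond m b) (x : ℂ)
    (hx : (derivative (Fe m b)).eval x = 0) :
    3 * √2 < ‖(Fe m b).eval x - 2‖ + ‖(Fe m b).eval x + 2‖ := by
  rcases Nat.eq_zero_or_pos h with rfl | hpos
  · obtain ⟨-, h3 | ⟨i, -⟩⟩ := hc
    · omega
    · exact i.elim0
  obtain ⟨g, hg⟩ : ∃ g, g + 1 = h + h := ⟨h + h - 1, by omega⟩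
  have he : Fe m b = C (m : ℂ) * ∏ j : Fin (g + 1), (X - C ((ie b (Fin.cast hg j) : ℤ) : ℂ)) := by
    rw [Fe_eq]
    congr 1
    exact (Fintype.prod_equiv (finCongr hg) _ _ fun j => rfl).symm
  rw [he] at hx ⊢
  refine crit_int m _ ((ie_inj h0 hb).comp (Fin.cast_injective hg)) ?_ x hx
  obtain ⟨hm, h3 | ⟨i, hi⟩⟩ := hc
  · exact Or.inr ⟨hm, by omega⟩
  · left
    have e1 : ie b (Fin.cast hg (Fin.cast hg.symm (Fin.castAdd h i))) = b i := ie_left b i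
    have e2 : ie b (Fin.cast hg (Fin.cast hg.symm (Fin.natAdd h i))) = -b i := ie_right b i
    rcases seventeen hi with h17 | h17
    · exact ⟨Fin.cast hg.symm (Fin.castAdd h i), Fin.cast hg.symm (Fin.natAdd h i), by
        simp only [Function.comp, e1, e2]
        exact h17⟩
    · exact ⟨Fin.cast hg.symm (Fin.natAdd h i), Fin.cast hg.symm (Fin.castAdd h i), by
        simp only [Function.comp, e1, e2]
        exact h17⟩

/-- **L3, critical values, odd degree.** -/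
theorem crit_Fo {m : ℤ} {b : Fin h → ℤ} (h0 : ∀ i, b i ≠ 0)
    (hb : ∀ i j, b i ^ 2 = b j ^ 2 → i = j) (hc : Cond m b) (x : ℂ)
    (hx : (derivative (Fo m b)).eval x = 0) :
    3 * √2 < ‖(Fo m b).eval x - 2‖ + ‖(Fo m b).eval x + 2‖ := by
  rw [Fo_eq] at hx ⊢
  refine crit_int m _ (io_inj h0 hb) ?_ x hx
  obtain ⟨hm, h3 | ⟨i, hi⟩⟩ := hc
  · exact Or.inr ⟨hm, by omega⟩
  · left
    have e1 : io b (Fin.castAdd h i).succ = b i := ie_left b i
    have e2 : io b (Fin.natAdd h i).succ = -b i := ie_right b i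
    rcases seventeen hi with h17 | h17
    · exact ⟨(Fin.castAdd h i).succ, (Fin.natAdd h i).succ, by rwa [e1, e2]⟩
    · exact ⟨(Fin.natAdd h i).succ, (Fin.castAdd h i).succ, by rwa [e1, e2]⟩

theorem Fe_eval (m : ℤ) (b : Fin h → ℤ) (x : ℂ) :
    (Fe m b).eval x = m * ∏ i, (x ^ 2 - (b i : ℂ) ^ 2) := by
  unfold Fe
  simp [eval_prod]

theorem Fo_eval (m : ℤ) (b : Fin h → ℤ) (x : ℂ) :
    (Fo m b).eval x = m * (x * ∏ i, (x ^ 2 - (b i : ℂ) ^ 2)) := by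
  unfold Fo
  simp [eval_prod]

theorem Fe_natDegree {m : ℤ} (hm : m ≠ 0) (b : Fin h → ℤ) : (Fe m b).natDegree = 2 * h := by
  rw [Fe_eq, natDegree_int hm]
  omega

theorem Fo_natDegree {m : ℤ} (hm : m ≠ 0) (b : Fin h → ℤ) : (Fo m b).natDegree = 2 * h + 1 := by
  rw [Fo_eq, natDegree_int hm]
  omega

/-- **L3, loops, even degree.** -/
theorem int_even {m : ℤ} {b : Fin h → ℤ} (h0 : ∀ i, b i ≠ 0)
    (hb : ∀ i j, b i ^ 2 = b j ^ 2 → i = j) (hc : Cond m b) :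
    HasLoops (Fe m b) fun i => (b i : ℂ) := by
  refine sqrt_even (Fe_natDegree hc.1 b) (crit_Fe h0 hb hc) (fun i => ?_) (fun i => ?_)
    (fun i => by exact_mod_cast h0 i) (cast_sq_inj hb)
  · rw [Fe_eval, Finset.prod_eq_zero (Finset.mem_univ i) (by ring), mul_zero]
  · rw [Fe_eval, Finset.prod_eq_zero (Finset.mem_univ i) (by ring), mul_zero]

/-- **L3, loops, odd degree.** -/
theorem int_odd {m : ℤ} {b : Fin h → ℤ} (h0 : ∀ i, b i ≠ 0)
    (hb : ∀ i j, b i ^ 2 = b j ^ 2 → i = j) (hc : Cond m b) :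
    HasLoops (Fo m b) fun i => (b i : ℂ) := by
  refine sqrt_odd (Fo_natDegree hc.1 b) (crit_Fo h0 hb hc) ?_ (fun i => ?_) (fun i => ?_)
    (fun i => by exact_mod_cast h0 i) (cast_sq_inj hb)
  · rw [Fo_eval]
    ring
  · rw [Fo_eval, Finset.prod_eq_zero (Finset.mem_univ i) (by ring), mul_zero, mul_zero]
  · rw [Fo_eval, Finset.prod_eq_zero (Finset.mem_univ i) (by ring), mul_zero, mul_zero]

end Pool.Agent.V5helper88.TQ
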