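import Pool.Agent.V5helper83.EQ.Tor
import Pool.Agent.V5helper83.EQ.Unr

/-!
The curves `v² = u G(u)² - 4`, the quotients of the curves `z + 1/z = x G(x²)` by
`(x, z) ↦ (-x, -1/z)`, and their symbols.
-/

set_option autoImplicit false

namespace Pool.Agent.V5helper88.TQ.Odd

open Polynomial

open Pool.Agent.TH826.MK (Torus symb KQ Unramified)

open Pool.Agent.V5helper83.EQ

variable {K : Type*} [Field K] {h : ℕ}

/-- The polynomial `D(u) = u G(u)² - 4`; the curve is `v² = D(u)`. -/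
noncomputable def D (G : K[X]) : K[X] := X * G ^ 2 - C 4

/-- The polynomial `T(u) = 2 - u G(u)²`. -/
noncomputable def T (G : K[X]) : K[X] := C 2 - X * G ^ 2

/-- The function `(u - b²) G² - 4`. -/
noncomputable def extra (G : K[X]) (b : K) : K[X] := (X - C (b ^ 2)) * G ^ 2 - C 4

/-- The open part of the curve is given by `v ≠ 0` and by the polynomial
`δ(u) = G ∏ (u - b_i²) ((u - b_i²) G² - 4)`. -/
noncomputable def delta (G : K[X]) (b : Fin h → K) : K[X] :=
  G * ∏ i, (X - C (b i ^ 2)) * extra G (b i)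

/-- The regular functions on the open part. -/
abbrev Ring (G : K[X]) (b : Fin h → K) : Type _ := COpen (D G) (delta G b)

/-- The function `v + b G`. -/
noncomputable def num (G : K[X]) (b : Fin h → K) (y : K) : Ring G b :=
  ov (D G) (delta G b) + opol (D G) (delta G b) (C y * G)

theorem isUnit_G (G : K[X]) (b : Fin h → K) : IsUnit (opol (D G) (delta G b) G) :=
  isUnit_opol (Dvd.intro _ rfl)

theorem isUnit_D (G : K[X]) (b : Fin h → K) : IsUnit (opol (D G) (delta G b) (D G)) :=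
  isUnit_opol_D dvd_rfl

theorem dvd_delta (G : K[X]) (b : Fin h → K) (i : Fin h) :
    (X - C (b i ^ 2)) * extra G (b i) ∣ delta G b :=
  (Finset.dvd_prod_of_mem (fun i => (X - C (b i ^ 2)) * extra G (b i)) (Finset.mem_univ i)).trans
    (Dvd.intro_left _ rfl)

theorem isUnit_extra (G : K[X]) (b : Fin h → K) (i : Fin h) :
    IsUnit (opol (D G) (delta G b) (extra G (b i))) :=
  isUnit_opol ((Dvd.intro_left _ rfl).trans (dvd_delta G b i))

theorem isUnit_sub (G : K[X]) (b : Fin h → K) (i : Fin h) :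
    IsUnit (opol (D G) (delta G b) (X - C (b i ^ 2))) :=
  isUnit_opol ((Dvd.intro _ rfl).trans (dvd_delta G b i))

theorem num_mul (G : K[X]) (b : Fin h → K) (y : K) :
    num G b y * num G b (-y) = opol (D G) (delta G b) (extra G y) := by
  have h1 : num G b y * num G b (-y) = ov (D G) (delta G b) ^ 2 -
      opol (D G) (delta G b) (C y * G) ^ 2 := by
    unfold num
    rw [C_neg, neg_mul, map_neg]
    ring
  rw [h1, ov_sq, ← map_pow, ← map_sub]
  congr 1
  unfold D extra
  rw [C_pow]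
  ring

theorem isUnit_num (G : K[X]) (b : Fin h → K) (i : Fin h) : IsUnit (num G b (b i)) := by
  have h1 := isUnit_extra G b i
  rw [← num_mul] at h1
  exact isUnit_of_mul_isUnit_left h1

theorem isUnit_den (G : K[X]) (b : Fin h → K) (i : Fin h) : IsUnit (num G b (-b i)) := by
  have h1 := isUnit_extra G b i
  rw [← num_mul] at h1
  exact isUnit_of_mul_isUnit_right h1

/-- The function `f_i = (v + b_i G) / (v - b_i G)`. -/
noncomputable def f (G : K[X]) (b : Fin h → K) (i : Fin h) : (Ring G b)ˣ :=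
  (isUnit_num G b i).unit / (isUnit_den G b i).unit

theorem f_mul (G : K[X]) (b : Fin h → K) (i : Fin h) :
    (f G b i : Ring G b) * num G b (-b i) = num G b (b i) := by
  have h1 : f G b i * (isUnit_den G b i).unit = (isUnit_num G b i).unit := div_mul_cancel _ _
  have h2 := congrArg Units.val h1
  rw [Units.val_mul, IsUnit.unit_spec, IsUnit.unit_spec] at h2
  exact h2

theorem g_mul (G : K[X]) (b : Fin h → K) (i : Fin h) :
    ((f G b i : Ring G b) ^ 2 - opol (D G) (delta G b) (T G) * f G b i + 1) *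
      num G b (-b i) ^ 2 = opol (D G) (delta G b) (D G) * opol (D G) (delta G b) G ^ 2 *
        opol (D G) (delta G b) (X - C (b i ^ 2)) := by
  have h1 : ((f G b i : Ring G b) ^ 2 - opol (D G) (delta G b) (T G) * f G b i + 1) *
      num G b (-b i) ^ 2 = num G b (b i) ^ 2 -
        opol (D G) (delta G b) (T G) * (num G b (b i) * num G b (-b i)) + num G b (-b i) ^ 2 := by
    rw [← f_mul]
    ring
  have h2 : num G b (b i) ^ 2 + num G b (-b i) ^ 2 =
      opol (D G) (delta G b) (C 2 * D G + C 2 * (C (b i) * G) ^ 2) := by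
    have h3 : num G b (b i) ^ 2 + num G b (-b i) ^ 2 =
        2 * ov (D G) (delta G b) ^ 2 + 2 * opol (D G) (delta G b) (C (b i) * G) ^ 2 := by
      unfold num
      rw [C_neg, neg_mul, map_neg]
      ring
    have h5 : opol (D G) (delta G b) (C 2) = 2 := by
      have h6 : (C 2 : K[X]) = 2 := rfl
      rw [h6, map_ofNat]
    rw [h3, ov_sq]
    simp only [map_add, map_mul, map_pow, h5]
  rw [h1, sub_add_eq_add_sub, h2, num_mul, ← map_mul, ← map_sub, ← map_pow, ← map_mul, ← map_mul]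
  congr 1
  unfold D extra T
  have h4 : (C 4 : K[X]) = 4 := rfl
  have h22 : (C 2 : K[X]) = 2 := rfl
  rw [h4, C_pow, h22]
  ring

theorem isUnit_g (G : K[X]) (b : Fin h → K) (i : Fin h) :
    IsUnit ((f G b i : Ring G b) ^ 2 - opol (D G) (delta G b) (T G) * f G b i + 1) := by
  have h1 := ((isUnit_D G b).mul ((isUnit_G G b).pow 2)).mul (isUnit_sub G b i)
  rw [← g_mul] at h1
  exact isUnit_of_mul_isUnit_left h1

/-- The function `g_i = f_i² - T f_i + 1`, `T = 2 - u G²`. -/
noncomputable def g (G : K[X]) (b : Fin h → K) (i : Fin h) : (Ring G b)ˣ := (isUnit_g G b i).unit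

theorem g_val (G : K[X]) (b : Fin h → K) (i : Fin h) :
    (g G b i : Ring G b) = (f G b i : Ring G b) ^ 2 - opol (D G) (delta G b) (T G) * f G b i + 1 :=
  IsUnit.unit_spec _

theorem natDegree_XG {G : K[X]} (hG : G ≠ 0) : (X * G ^ 2).natDegree = 2 * G.natDegree + 1 := by
  rw [natDegree_mul X_ne_zero (pow_ne_zero 2 hG), natDegree_X, natDegree_pow]
  ring

theorem natDegree_D {G : K[X]} (hG : G ≠ 0) : (D G).natDegree = 2 * G.natDegree + 1 := by
  unfold D
  rw [natDegree_sub_C, natDegree_XG hG]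

theorem D_ne {G : K[X]} (hG : G ≠ 0) : D G ≠ 0 := by
  intro h0
  have h1 := natDegree_D hG
  rw [h0, natDegree_zero] at h1
  omega

theorem extra_ne {G : K[X]} (hG : G ≠ 0) (y : K) : extra G y ≠ 0 := by
  intro h0
  have h1 : (extra G y).natDegree = 2 * G.natDegree + 1 := by
    unfold extra
    rw [natDegree_sub_C, natDegree_mul (X_sub_C_ne_zero _) (pow_ne_zero 2 hG), natDegree_X_sub_C,
      natDegree_pow]
    ring
  rw [h0, natDegree_zero] at h1
  omega

theorem delta_ne {G : K[X]} (hG : G ≠ 0) (b : Fin h → K) : delta G b ≠ 0 :=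
  mul_ne_zero hG (Finset.prod_ne_zero_iff.2 fun _ _ =>
    mul_ne_zero (X_sub_C_ne_zero _) (extra_ne hG _))

theorem isDomain {G : K[X]} (hG : G ≠ 0) : IsDomain (CRing (D G)) :=
  isDomain_CRing (by
    rw [natDegree_D hG]
    exact odd_two_mul_add_one _)

/-- The symbol `{f_i, f_i² - T f_i + 1}`. -/
noncomputable def sym (G : K[X]) (b : Fin h → K) (i : Fin h) : KQ (Ring G b) 2 :=
  symb ![f G b i, g G b i]

/-- The symbols `{f_i, f_i² - T f_i + 1}` are unramified at all discrete valuations of the function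
field `M` of the curve `v² = u G(u)² - 4`. -/
def UnramifiedSymbols.{u, w} {K : Type u} [Field K] {h : ℕ} (G : K[X]) (b : Fin h → K) : Prop :=
  ∀ (M : Type w) [Field M] [Algebra (CRing (D G)) M] [IsFractionRing (CRing (D G)) M],
    ∃ φ : Ring G b →+* M,
      (∀ a, φ (toOpen (D G) (delta G b) a) = algebraMap (CRing (D G)) M a) ∧
      ∀ i, KQ.map 2 φ (sym G b i) ∈ Unramified M 2

/-- There are `h` loops in the complex points over `s` of the open part of the curve
`v² = u G(u)² - 4`, such that the determinant of the regulators on the loops of the `h` symbols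
`{f_i, f_i² - T f_i + 1}` does not vanish. -/
def IndependentRegulators {K : Type*} [Field K] (s : K →+* ℂ) {h : ℕ} (G : K[X])
    (b : Fin h → K) : Prop :=
  ∃ Γ : Fin h → Torus (Ring G b) 1,
    (∀ l θ (y : K), (Γ l).e θ (opol (D G) (delta G b) (C y)) = s y) ∧
    (Matrix.of fun l i : Fin h => (Γ l).reg (sym G b i)).det ≠ 0

theorem map_poly {K S : Type*} [Field K] [CommRing S] (ψ : K[X] →+* S) (p : K[X]) :
    ψ p = p.eval₂ (ψ.comp C) (ψ X) := by
  conv_lhs => rw [← Polynomial.eval₂_C_X (p := p)]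
  rw [Polynomial.hom_eval₂]

theorem intC_mul {p q : K[X]} (hp : ∀ i, IsIntegral ℤ (p.coeff i))
    (hq : ∀ i, IsIntegral ℤ (q.coeff i)) (i : ℕ) : IsIntegral ℤ ((p * q).coeff i) := by
  rw [coeff_mul]
  exact IsIntegral.sum _ fun x _ => (hp _).mul (hq _)

theorem intC_T {G : K[X]} (hG : ∀ i, IsIntegral ℤ (G.coeff i)) (i : ℕ) :
    IsIntegral ℤ ((T G).coeff i) := by
  unfold T
  rw [coeff_sub]
  refine IsIntegral.sub ?_ (intC_mul (fun j => ?_) (fun j => ?_) i)
  · rw [coeff_C]
    split_ifs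
    · have h3 := isIntegral_algebraMap (R := ℤ) (A := K) (x := 2)
      rwa [map_ofNat] at h3
    · exact isIntegral_zero
  · rw [coeff_X]
    split_ifs
    · exact isIntegral_one
    · exact isIntegral_zero
  · rw [pow_two]
    exact intC_mul hG hG j

theorem unramified.{u, w} {K : Type u} [Field K] [NumberField K] {h : ℕ} {G : K[X]}
    (hG0 : G ≠ 0) (hG : ∀ i, IsIntegral ℤ (G.coeff i)) {b : Fin h → K}
    (hb : ∀ i, IsIntegral ℤ (b i)) (s : K →+* ℂ)
    (hκ : ∀ i, ∃ (ζ : ℂ) (k : ℕ), k ≠ 0 ∧ ζ ^ k = 1 ∧ s (b i * G.eval (b i ^ 2)) = ζ + ζ⁻¹) :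
    UnramifiedSymbols.{u, w} G b := by
  intro M _ _ _
  have hdom : IsDomain (CRing (D G)) := isDomain hG0
  have hinj : Function.Injective (algebraMap (CRing (D G)) M) := IsFractionRing.injective _ _
  have hpol : ∀ p : K[X], p ≠ 0 → algebraMap (CRing (D G)) M (cpol (D G) p) ≠ 0 := by
    intro p hp h0
    apply hp
    apply cpol_injective (D G)
    apply hinj
    rw [h0, map_zero, map_zero]
  have hv0 : algebraMap (CRing (D G)) M (cv (D G)) ≠ 0 := by
    intro h0
    have h1 := congrArg (algebraMap (CRing (D G)) M) (cv_sq (D G))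
    rw [map_pow, h0, zero_pow two_ne_zero] at h1
    exact hpol _ (D_ne hG0) h1.symm
  have hu : IsUnit (algebraMap (CRing (D G)) M (cv (D G) * cpol (D G) (delta G b))) := by
    rw [map_mul]
    exact (mul_ne_zero hv0 (hpol _ (delta_ne hG0 b))).isUnit
  refine ⟨oext (algebraMap (CRing (D G)) M) hu, fun a => oext_map _ hu a, fun i => ?_⟩
  obtain ⟨φ, hφ⟩ : ∃ φ : Ring G b →+* M, φ = oext (algebraMap (CRing (D G)) M) hu := ⟨_, rfl⟩
  rw [← hφ]
  obtain ⟨ψ, hψ⟩ : ∃ ψ : K[X] →+* M, ψ = φ.comp (opol (D G) (delta G b)) := ⟨_, rfl⟩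
  have hψa : ∀ p, φ (opol (D G) (delta G b) p) = ψ p := fun p => by rw [hψ]; rfl
  obtain ⟨Y, hY⟩ : ∃ Y : M, Y = φ (ov (D G) (delta G b)) := ⟨_, rfl⟩
  have hC2 : ψ (C 2) = 2 := by
    have h6 : (C 2 : K[X]) = 2 := rfl
    rw [h6, map_ofNat]
  have hC4 : ψ (C 4) = 4 := by
    have h6 : (C 4 : K[X]) = 4 := rfl
    rw [h6, map_ofNat]
  have hY2 : Y ^ 2 = ψ X * ψ G ^ 2 - 4 := by
    rw [hY, ← map_pow, ov_sq, hψa]
    unfold D
    rw [map_sub, map_mul, map_pow, hC4]
  have hY0 : Y ≠ 0 := by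
    rw [hY]
    exact ((isUnit_ov (D G) (delta G b)).map φ).ne_zero
  have hψG : ψ G ≠ 0 := by
    have h1 := ((isUnit_G G b).map φ).ne_zero
    rwa [hψa] at h1
  have hchar : CharZero M := by
    have h1 : Function.Injective (ψ.comp C) := (ψ.comp C).injective
    exact charZero_of_injective_ringHom h1
  have hCb : ψ (C (b i)) = (ψ.comp C) (b i) := rfl
  obtain ⟨c, hc⟩ : ∃ c : K →+* M, c = ψ.comp C := ⟨_, rfl⟩
  rw [← hc] at hCb
  have hτ : (T G).eval₂ c (ψ X) = 2 - ψ X * ψ G ^ 2 := by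
    rw [hc, ← map_poly]
    unfold T
    rw [map_sub, map_mul, map_pow, hC2]
  obtain ⟨w, hw⟩ : ∃ w : M, w = Y / ψ G := ⟨_, rfl⟩
  have hwY : w * ψ G = Y := by rw [hw, div_mul_cancel₀ _ hψG]
  have hw2 : (w ^ 2 - ψ X) * ψ G ^ 2 = -4 := by
    have h1 : w ^ 2 * ψ G ^ 2 = Y ^ 2 := by rw [← mul_pow, hwY]
    rw [hY2] at h1
    linear_combination h1
  have hnum : φ (num G b (b i)) = ψ G * (w + c (b i)) := by
    unfold num
    rw [map_add φ, hψa, ← hY, map_mul, hCb, ← hwY]
    ring
  have hden : φ (num G b (-b i)) = ψ G * (w - c (b i)) := by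
    unfold num
    rw [map_add φ, hψa, ← hY, map_mul, C_neg, map_neg, hCb, ← hwY]
    ring
  have hden0 : w - c (b i) ≠ 0 := by
    have h1 := ((isUnit_den G b i).map φ).ne_zero
    rw [hden] at h1
    exact right_ne_zero_of_mul h1
  have hub : c (b i) ^ 2 - ψ X ≠ 0 := by
    have h1 := ((isUnit_sub G b i).map φ).ne_zero
    rw [hψa, map_sub] at h1
    intro h2
    apply h1
    have h3 : ψ (C (b i ^ 2)) = c (b i) ^ 2 := by rw [C_pow, map_pow, hCb]
    rw [h3]
    linear_combination -h2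
  unfold sym
  rw [KQ.map_symb]
  unfold Unramified
  simp only [Submodule.mem_iInf]
  intro v _
  have hsy : (fun j => Units.map (φ : Ring G b →* M) ((![f G b i, g G b i] : Fin 2 → _) j)) =
      ![Units.map (φ : Ring G b →* M) (f G b i), Units.map (φ : Ring G b →* M) (g G b i)] := by
    funext j
    fin_cases j <;> rfl
  rw [hsy]
  have hκ' : ∃ (ζ : ℂ) (k : ℕ), k ≠ 0 ∧ ζ ^ k = 1 ∧ s ((T G).eval (b i ^ 2)) = ζ + ζ⁻¹ := by
    obtain ⟨ζ, k, hk, h1, h2⟩ := hκ i
    have hζ0 : ζ ≠ 0 := by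
      rintro rfl
      rw [zero_pow hk] at h1
      exact zero_ne_one h1
    refine ⟨-ζ ^ 2, 2 * k, by omega, ?_, ?_⟩
    · have h3 : (-ζ ^ 2) ^ (2 * k) = (ζ ^ k) ^ 4 := by
        rw [pow_mul, neg_sq]
        ring
      rw [h3, h1, one_pow]
    · have h3 : (T G).eval (b i ^ 2) = 2 - (b i * G.eval (b i ^ 2)) ^ 2 := by
        unfold T
        rw [eval_sub, eval_mul, eval_pow, eval_C, eval_X]
        ring
      rw [h3, map_sub, map_pow, h2, map_ofNat]
      field_simp
      ring
  refine mem_unitPart c v s (intC_T hG) (hb i) hκ' (u := ψ X) (w := w) ?_ two_ne_zero ?_ ?_ hden0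
    hub ?_ ?_
  · rw [hw]
    exact div_ne_zero hY0 hψG
  · rw [hτ]
    linear_combination (-ψ X) * hw2
  · rw [hτ]
    refine mul_left_cancel₀ (pow_ne_zero 2 hψG) ?_
    linear_combination (4 - ψ X * ψ G ^ 2) * hw2 - 4 * hw2
  · have h1 := congrArg φ (f_mul G b i)
    rw [map_mul, hnum, hden] at h1
    show φ (f G b i : Ring G b) = _
    rw [eq_div_iff hden0]
    refine mul_left_cancel₀ hψG ?_
    linear_combination h1
  · show φ (g G b i : Ring G b) = φ (f G b i : Ring G b) ^ 2 - (T G).eval₂ c (ψ X) *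
      φ (f G b i : Ring G b) + 1
    rw [g_val, map_add, map_sub, map_mul, map_pow, map_one, hψa, hτ]
    unfold T
    rw [map_sub, map_mul, map_pow, hC2]

end Pool.Agent.V5helper88.TQ.Odd
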