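import Pool.Agent.V5helper83.EQ.EvenTor
import Pool.Agent.V5helper88.TQ.OddAlg

/-!
The regulators of the symbols `{f_i, f_i² - T f_i + 1}` on the curves `v² = u G(u)² - 4`.
-/

set_option autoImplicit false

namespace Pool.Agent.V5helper88.TQ.Odd

open Polynomial

open Pool.Agent.TH826.MK (Torus symb KQ circ norm_circ circ_add_one contDiff_circ)

open Pool.Agent.TH826.UH (NZ pr nz_circ pr_mul pr_neg)

open Pool.Agent.V5helper83.EQ

variable {K : Type*} [Field K] {h : ℕ}

theorem pr_two {z B : ℝ → ℂ} (hz : NZ z) (hB : NZ B) :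
    pr (fun t => -z t ^ 2) B = 2 * pr z B := by
  have e : (fun t => -z t ^ 2) = fun t => -(z t * z t) := by
    funext t
    ring
  rw [e, pr_symm, pr_neg, pr_mul hB hz hz, pr_symm z B]
  ring

theorem independent (s : K →+* ℂ) {G : K[X]} (hG : G ≠ 0) {b : Fin h → K}
    (H : HasLoops (X * (G.map s).comp (X ^ 2)) fun i => s (b i)) :
    IndependentRegulators s G b := by
  have hP0 : ((X * delta G b).map s).comp (X ^ 2) ≠ 0 := by
    rw [← expand_eq_comp_X_pow]
    exact (expand_ne_zero two_pos).2 ((Polynomial.map_ne_zero_iff s.injective).2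
      (mul_ne_zero X_ne_zero (delta_ne hG b)))
  obtain ⟨R, x, hR, hRS, hx, px, hcurve, hβ, hdet⟩ := H _ (finite_radii hP0 fun y =>
    (X * (G.map s).comp (X ^ 2)).eval y)
  have hR0 : (0 : ℝ) < R := zero_lt_one.trans hR
  have hF : ∀ y : ℂ, (X * (G.map s).comp (X ^ 2)).eval y = y * G.eval₂ s (y ^ 2) := fun y => by
    rw [eval_mul, eval_X, eval_comp, eval_pow, eval_X, eval_map]
  have hZ0 : ∀ t, circ R t ≠ 0 := (nz_circ hR0).ne_zero
  have hZn : ∀ t, ‖circ R t‖ = R := norm_circ hR0.le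
  have hZ1 : ∀ t, circ R t ^ 2 - 1 ≠ 0 := fun t h0 => by
    have h1 : circ R t ^ 2 = 1 := sub_eq_zero.1 h0
    have h2 := congrArg (fun z : ℂ => ‖z‖) h1
    simp only [norm_pow, hZn, norm_one] at h2
    nlinarith
  have hZ4 : ∀ t, (-circ R t ^ 2) ^ 2 - 1 ≠ 0 := fun t h0 => by
    have h1 : circ R t ^ 4 = 1 := by
      rw [← sub_eq_zero, ← h0]
      ring
    have h2 := congrArg (fun z : ℂ => ‖z‖) h1
    simp only [norm_pow, hZn, norm_one] at h2
    have h3 : (1 : ℝ) < R ^ 4 := one_lt_pow₀ hR (by norm_num)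
    linarith
  have hZZ : ∀ t, circ R t - (circ R t)⁻¹ ≠ 0 := fun t h0 => hZ1 t (by
    have h1 := congrArg (fun z => circ R t * z) h0
    simp only [mul_sub, mul_inv_cancel₀ (hZ0 t), mul_zero] at h1
    rw [sq]
    exact h1)
  have hG2 : ∀ l t, x l t * G.eval₂ s (x l t ^ 2) = circ R t + (circ R t)⁻¹ := fun l t => by
    have h1 := hcurve l t
    rw [hF] at h1
    have h2 := hZ0 t
    refine mul_right_cancel₀ h2 ?_
    rw [add_mul, inv_mul_cancel₀ h2]
    linear_combination -h1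
  have hbad : ∀ l t, (X * delta G b).eval₂ s (x l t ^ 2) ≠ 0 := fun l t h0 => hRS
    ⟨x l t, circ R t, by rw [eval_comp, eval_pow, eval_X, eval_map]; exact h0, hcurve l t, hZn t⟩
  have hx0 : ∀ l t, x l t ≠ 0 := fun l t h0 => hbad l t (by
    rw [eval₂_mul, eval₂_X, h0, zero_pow two_ne_zero, zero_mul])
  have hδ : ∀ l t, (delta G b).eval₂ s (x l t ^ 2) ≠ 0 := fun l t h0 => hbad l t (by
    rw [eval₂_mul, h0, mul_zero])
  have hhom : ∀ l, ∃ φ : COpen (D G) (delta G b) →+* CC,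
      (∀ p θ, (φ (opol (D G) (delta G b) p)).1 θ = p.eval₂ s (x l (θ 0) ^ 2)) ∧
      ∀ θ, (φ (ov (D G) (delta G b))).1 θ = circ R (θ 0) - (circ R (θ 0))⁻¹ := by
    intro l
    refine exists_hom (U := fun t => x l t ^ 2)
      (V := fun t => circ R t - (circ R t)⁻¹) ((hx l).pow 2)
      ((contDiff_circ R).sub ((contDiff_circ R).inv hZ0)) (fun t => ?_)
      (fun t => ?_) (fun t => ?_) hZZ (hδ l)
    · rw [px]
    · rw [circ_add_one]
    · unfold D
      have h4 : (C 4 : K[X]).eval₂ s (x l t ^ 2) = 4 := by rw [eval₂_C, map_ofNat]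
      have h5 : x l t ^ 2 * G.eval₂ s (x l t ^ 2) ^ 2 = (circ R t + (circ R t)⁻¹) ^ 2 := by
        rw [← hG2 l t]
        ring
      rw [eval₂_sub, eval₂_mul, eval₂_X, eval₂_pow, h4, h5]
      have h2 := hZ0 t
      field_simp
      ring
  choose φ hφ hφv using hhom
  refine ⟨fun l => torOf (φ l), fun l θ y => ?_, ?_⟩
  · rw [torOf_e, hφ, eval₂_C]
  have hreg : ∀ l i, (torOf (φ l)).reg (sym G b i) =
      2 * (pr (circ R) (fun t => x l t - s (b i)) - pr (circ R) (fun t => x l t + s (b i))) := by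
    intro l i
    have hnum : ∀ (y : K) (θ : Fin 1 → ℝ), (φ l (num G b y)).1 θ =
        -((x l (θ 0))⁻¹ * (circ R (θ 0))⁻¹) *
          (-circ R (θ 0) ^ 2 * (x l (θ 0) + s y) + (x l (θ 0) - s y)) := by
      intro y θ
      unfold num
      rw [map_add (φ l)]
      show (φ l (ov (D G) (delta G b))).1 θ + (φ l (opol (D G) (delta G b) (C y * G))).1 θ = _
      rw [hφ, hφv, eval₂_mul, eval₂_C]
      have h2 := hZ0 (θ 0)
      have h3 := hx0 l (θ 0)
      have h4 : G.eval₂ s (x l (θ 0) ^ 2) = (circ R (θ 0) + (circ R (θ 0))⁻¹) / x l (θ 0) := by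
        rw [← hG2 l (θ 0), mul_div_cancel_left₀ _ h3]
      rw [h4]
      field_simp
      ring
    have hval : ∀ u : (Ring G b)ˣ, ∀ θ, (φ l (u : Ring G b)).1 θ ≠ 0 := by
      intro u θ
      have h1 : IsUnit (evC θ (φ l (u : Ring G b))) := (u.isUnit.map (φ l)).map (evC θ)
      exact h1.ne_zero
    have hP : ∀ t, -circ R t ^ 2 * (x l t + s (b i)) + (x l t - s (b i)) ≠ 0 := fun t => by
      have h1 := hval (isUnit_num G b i).unit (fun _ => t)
      rw [IsUnit.unit_spec, hnum] at h1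
      exact right_ne_zero_of_mul h1
    have hQ : ∀ t, -circ R t ^ 2 * (x l t - s (b i)) + (x l t + s (b i)) ≠ 0 := fun t => by
      have h1 := hval (isUnit_den G b i).unit (fun _ => t)
      rw [IsUnit.unit_spec, hnum, map_neg, sub_neg_eq_add, ← sub_eq_add_neg] at h1
      exact right_ne_zero_of_mul h1
    have hf : ∀ θ, (φ l (f G b i : Ring G b)).1 θ =
        (-circ R (θ 0) ^ 2 * (x l (θ 0) + s (b i)) + (x l (θ 0) - s (b i))) /
          (-circ R (θ 0) ^ 2 * (x l (θ 0) - s (b i)) + (x l (θ 0) + s (b i))) := by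
      intro θ
      have h1 : φ l (f G b i : Ring G b) * φ l (num G b (-b i)) = φ l (num G b (b i)) := by
        rw [← map_mul, f_mul]
      have h2 : (φ l (f G b i : Ring G b)).1 θ * (φ l (num G b (-b i))).1 θ =
          (φ l (num G b (b i))).1 θ := congrArg (fun a : CC => a.1 θ) h1
      have h3 := hval (isUnit_den G b i).unit θ
      rw [IsUnit.unit_spec] at h3
      rw [hnum, hnum, map_neg, sub_neg_eq_add, ← sub_eq_add_neg] at h2
      rw [hnum, map_neg, sub_neg_eq_add, ← sub_eq_add_neg] at h3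
      rw [eq_div_iff (hQ (θ 0))]
      refine mul_left_cancel₀ (left_ne_zero_of_mul h3) ?_
      linear_combination h2
    have hg : ∀ θ, (φ l (g G b i : Ring G b)).1 θ = (φ l (f G b i : Ring G b)).1 θ ^ 2 -
        (-circ R (θ 0) ^ 2 + (-circ R (θ 0) ^ 2)⁻¹) * (φ l (f G b i : Ring G b)).1 θ + 1 := by
      intro θ
      rw [g_val, map_add, map_sub, map_mul, map_pow, map_one]
      show (φ l (f G b i : Ring G b)).1 θ ^ 2 -
        (φ l (opol (D G) (delta G b) (T G))).1 θ * (φ l (f G b i : Ring G b)).1 θ + 1 = _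
      have h5 : (T G).eval₂ s (x l (θ 0) ^ 2) =
          -circ R (θ 0) ^ 2 + (-circ R (θ 0) ^ 2)⁻¹ := by
        unfold T
        have h4 : (C 2 : K[X]).eval₂ s (x l (θ 0) ^ 2) = 2 := by rw [eval₂_C, map_ofNat]
        have h6 : x l (θ 0) ^ 2 * G.eval₂ s (x l (θ 0) ^ 2) ^ 2 =
            (circ R (θ 0) + (circ R (θ 0))⁻¹) ^ 2 := by
          rw [← hG2 l (θ 0)]
          ring
        rw [eval₂_sub, eval₂_mul, eval₂_X, eval₂_pow, h4, h6]
        have h2 := hZ0 (θ 0)
        field_simp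
        ring
      rw [hφ, h5]
    have hsm : ∀ u : (Ring G b)ˣ, NZ fun t => (φ l (u : Ring G b)).1 fun _ => t := by
      intro u
      refine ⟨(φ l (u : Ring G b)).2.1.comp ?_, fun t => hval u _⟩
      exact contDiff_pi.2 fun _ => contDiff_id
    have he : ∀ θ : Fin 1 → ℝ, θ = fun _ => θ 0 := fun θ => by
      funext i
      rw [Subsingleton.elim i 0]
    have nz := nz_circ hR0
    have nZ : NZ fun t => -circ R t ^ 2 := ⟨(nz.smooth.pow 2).neg, fun t =>
      neg_ne_zero.2 (pow_ne_zero 2 (hZ0 t))⟩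
    have hA : ∀ t, x l t + s (b i) ≠ 0 := fun t h0 => (hβ l i t).2 (eq_neg_of_add_eq_zero_left h0)
    have hB : ∀ t, x l t - s (b i) ≠ 0 := fun t => sub_ne_zero.2 (hβ l i t).1
    unfold sym
    rw [torOf_reg (φ l) (f G b i) (g G b i)
      (f := fun t => (φ l (f G b i : Ring G b)).1 fun _ => t)
      (g := fun t => (φ l (g G b i : Ring G b)).1 fun _ => t)
      (fun θ => by rw [← he]) (fun θ => by rw [← he]) (hsm _) (hsm _)]
    have hm : pr (fun t => (φ l (f G b i : Ring G b)).1 fun _ => t)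
        (fun t => (φ l (g G b i : Ring G b)).1 fun _ => t) =
        pr (fun t => -circ R t ^ 2) (fun t => x l t - s (b i)) -
          pr (fun t => -circ R t ^ 2) (fun t => x l t + s (b i)) :=
      pr_main nZ (fun t => by rw [circ_add_one]) (hx l) (px l) hA hB hP hQ hZ4
        (fun t => hf _) fun t => hg _
    rw [hm, pr_two nz ⟨(hx l).sub contDiff_const, hB⟩, pr_two nz ⟨(hx l).add contDiff_const, hA⟩]
    ring
  have e : (Matrix.of fun l i : Fin h => (torOf (φ l)).reg (sym G b i)) =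
      (2 : ℝ) • Matrix.of fun l i => pr (circ R) (fun t => x l t - s (b i)) -
        pr (circ R) (fun t => x l t + s (b i)) := by
    ext l i
    rw [Matrix.of_apply, hreg, Matrix.smul_apply, Matrix.of_apply, smul_eq_mul]
  rw [e, Matrix.det_smul]
  exact mul_ne_zero (pow_ne_zero _ two_ne_zero) hdet

end Pool.Agent.V5helper88.TQ.Odd
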