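import Pool.Agent.V5helper83.EQ.EvenSqf
import Pool.Agent.V5helper88.TQ.OddTor
import Pool.Agent.V5helper88.TQ.Int

/-!
The polynomial `u G(u)² - 4` is squarefree, if the critical values of `x G(x²)` are not `± 2`.
-/

set_option autoImplicit false

namespace Pool.Agent.V5helper88.TQ.Odd

open Polynomial

open Pool.Agent.V5helper83.EQ

variable {K : Type*} [Field K]

/-- The polynomial `F(x) = x G(x²)`. -/
noncomputable def cover (G : K[X]) : K[X] := X * G.comp (X ^ 2)

theorem cover_map (s : K →+* ℂ) (G : K[X]) : (cover G).map s = X * (G.map s).comp (X ^ 2) := by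
  unfold cover
  rw [Polynomial.map_mul, map_X, Polynomial.map_comp, Polynomial.map_pow, map_X]

theorem squarefree_D (s : K →+* ℂ) {G : K[X]}
    (hc : ∀ x : ℂ, (derivative (cover G)).eval₂ s x = 0 → (cover G).eval₂ s x ^ 2 ≠ 4) :
    Squarefree (D G) := by
  obtain ⟨P, hP⟩ : ∃ P : ℂ[X], P = G.map s := ⟨_, rfl⟩
  have hF : ∀ y : ℂ, (cover G).eval₂ s y = y * P.eval (y ^ 2) := fun y => by
    rw [← eval_map, cover_map, ← hP, eval_mul, eval_X, eval_comp, eval_pow, eval_X]
  have hF' : ∀ y : ℂ, (derivative (cover G)).eval₂ s y =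
      P.eval (y ^ 2) + 2 * y ^ 2 * (derivative P).eval (y ^ 2) := fun y => by
    rw [← eval_map, ← derivative_map, cover_map, ← hP, derivative_mul, derivative_X,
      derivative_comp, derivative_X_pow]
    simp only [eval_add, eval_mul, eval_comp, eval_pow, eval_X, eval_one, one_mul, eval_C,
      eval_natCast]
    norm_num
    ring
  have hD : (D G).map s = X * P ^ 2 - C 4 := by
    unfold D
    rw [Polynomial.map_sub, Polynomial.map_mul, map_X, Polynomial.map_pow, map_C, hP, map_ofNat]
  refine squarefree_of s fun a ha => ?_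
  rw [hD] at ha ⊢
  have h1 : (derivative (X * P ^ 2 - C 4)).eval a =
      P.eval a * (P.eval a + 2 * a * (derivative P).eval a) := by
    rw [derivative_sub, derivative_mul, derivative_X, derivative_pow, derivative_C]
    simp
    ring
  rw [h1]
  intro h2
  rw [eval_sub, eval_mul, eval_X, eval_pow, eval_C, sub_eq_zero] at ha
  have h4 : P.eval a ≠ 0 := by
    intro h5
    rw [h5] at ha
    norm_num at ha
  have h5 := (mul_eq_zero.1 h2).resolve_left h4
  obtain ⟨y, hy⟩ := IsAlgClosed.exists_pow_nat_eq a (n := 2) (by norm_num)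
  refine hc y ?_ ?_
  · rw [hF', hy, h5]
  · rw [hF, mul_pow, hy, ha]

end Pool.Agent.V5helper88.TQ.Odd
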