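import Pool.Agent.V5helper88.TQ.Loops
set_option autoImplicit false

/-!
# Loops with generic radius: the criteria
-/

namespace Pool.Agent.V5helper88.TQ

open Polynomial MeasureTheory Set

open Pool.Agent.TH826.MK (circ norm_circ contDiff_circ circ_add_one)

open Pool.Agent.TH826.UH (pr NZ nz_circ)

open Pool.Agent.Y775.CC

open Pool.Agent.N686.EL

open Pool.Agent.V5helper83.EQ (HasLoops)

variable {F : ℂ[X]}

theorem exists_branch' {g : ℕ} {G : ℂ[X]} {V : Set ℂ} {φ : Fin (g + 1) → ℂ → ℂ}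
    (H : Branches G V φ) {μ : ℂ} (hμ : μ ≠ 0) (hG : ∀ x, F.eval (μ * x) = G.eval x)
    {b : ℂ} {θ : ℝ} (hθ : F.eval b = uu 1 θ) : ∃ j, b = μ * φ j (uu 1 θ) := by
  have h1 : G.eval (μ⁻¹ * b) = uu 1 θ := by
    rw [← hG, mul_inv_cancel_left₀ hμ, hθ]
  have h2 := H.eval_sub_eq (H.uu_mem θ) (μ⁻¹ * b)
  rw [h1, sub_self] at h2
  obtain ⟨j, -, hj⟩ := Finset.prod_eq_zero_iff.1 h2.symm
  refine ⟨j, ?_⟩
  rw [← sub_eq_zero.1 hj, mul_inv_cancel_left₀ hμ]

theorem comp_eq' {g : ℕ} {G : ℂ[X]} {V : Set ℂ} {φ : Fin (g + 1) → ℂ → ℂ}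
    (H : Branches G V φ) {μ : ℂ} (hG : ∀ x, F.eval (μ * x) = G.eval x)
    (j : Fin (g + 1)) (a a' : ℝ) :
    connectedComponentIn {x : ℂ | ∃ t : ℝ, |t| ≤ 2 ∧ F.eval x = t} (μ * φ j (uu 1 a)) =
      connectedComponentIn {x : ℂ | ∃ t : ℝ, |t| ≤ 2 ∧ F.eval x = t} (μ * φ j (uu 1 a')) := by
  set S := {x : ℂ | ∃ t : ℝ, |t| ≤ 2 ∧ F.eval x = t} with hS
  set U : Set ℂ := Set.range fun t => μ * φ j (uu 1 t) with hU
  have hUc : IsPreconnected U :=
    isPreconnected_range (continuous_const.mul (continuous_branch H j))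
  have hUS : U ⊆ S := by
    rintro _ ⟨t, rfl⟩
    refine ⟨2 * Real.cos (2 * Real.pi * t), abs_cos_le t, ?_⟩
    rw [hG, H.eval_branch _ (H.uu_mem _), uu_one]
  have h1 := hUc.subset_connectedComponentIn (x := μ * φ j (uu 1 a)) ⟨a, rfl⟩ hUS
  exact connectedComponentIn_eq (h1 ⟨a', rfl⟩)

/-- The criterion for arbitrary special points. -/
theorem crit_two' {g h : ℕ} (hdeg : F.natDegree = g + 1)
    (hcrit : ∀ x : ℂ, (derivative F).eval x = 0 →
      5 < ‖F.eval x - 2‖ + ‖F.eval x + 2‖) (p : Fin (g + 1) → ℂ)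
    (hp : ∀ m, ∃ ζ : ℂ, ‖ζ‖ = 1 ∧ F.eval (p m) = ζ + ζ⁻¹)
    (hinj : Function.Injective fun m =>
      connectedComponentIn {x : ℂ | ∃ t : ℝ, |t| ≤ 2 ∧ F.eval x = t} (p m))
    {b : Fin h → ℂ} (e f : Fin h → Fin (g + 1)) (he : Function.Injective e)
    (hef : ∀ i j, e i ≠ f j) (hbe : ∀ i, p (e i) = b i) (hbf : ∀ i, p (f i) = -b i) :
    HasLoops F b := by
  obtain ⟨μ, G, V, φ, hμ, hG, H, hV⟩ := exists_branches_ellipse (P := F) (n := g + 1)
    (Nat.succ_pos g) hdeg (q := 2) one_lt_two fun x hx => by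
      have h1 := hcrit x hx
      norm_num at h1 ⊢
      exact h1
  have hθ : ∀ m, ∃ θ : ℝ, F.eval (p m) = uu 1 θ := by
    intro m
    obtain ⟨ζ, h1, h2⟩ := hp m
    obtain ⟨θ, h3⟩ := exists_circ h1
    refine ⟨θ, ?_⟩
    rw [h2, ← h3]
    rfl
  choose θ hθ using hθ
  choose β hβ using fun m => exists_branch' H hμ hG (hθ m)
  have hβi : Function.Injective β := by
    intro m m' h
    apply hinj
    simp only
    rw [hβ m, hβ m', h]
    exact comp_eq' H hG _ _ _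
  exact hasLoops_of_angles H hμ hG one_lt_two hV one_pos (by norm_num) p θ
    (fun m k hk => absurd (one_dvd k) hk) hβi hβ e f he hef hbe hbf

/-- The criterion for the zeros of `F`. -/
theorem crit_sqrt' {g h : ℕ} (hdeg : F.natDegree = g + 1)
    (hcrit : ∀ x : ℂ, (derivative F).eval x = 0 →
      3 * √2 < ‖F.eval x - 2‖ + ‖F.eval x + 2‖) (p : Fin (g + 1) → ℂ)
    (hp : ∀ m, F.eval (p m) = 0) (hinj : Function.Injective p)
    {b : Fin h → ℂ} (e f : Fin h → Fin (g + 1)) (he : Function.Injective e)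
    (hef : ∀ i j, e i ≠ f j) (hbe : ∀ i, p (e i) = b i) (hbf : ∀ i, p (f i) = -b i) :
    HasLoops F b := by
  have hq : (1 : ℝ) < √2 := by
    rw [Real.lt_sqrt zero_le_one]
    norm_num
  have hs : 2 * (√2 + (√2)⁻¹) = 3 * √2 := by
    have h1 : √2 * √2 = 2 := Real.mul_self_sqrt (by norm_num)
    have h2 : √2 ≠ 0 := by positivity
    field_simp
    nlinarith
  obtain ⟨μ, G, V, φ, hμ, hG, H, hV⟩ := exists_branches_ellipse (P := F) (n := g + 1)
    (Nat.succ_pos g) hdeg (q := √2) hq fun x hx => by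
      rw [hs]
      exact hcrit x hx
  have hθ : ∀ m, F.eval (p m) = uu 1 (1 / 4) := by
    intro m
    rw [hp, uu_quarter]
  choose β hβ using fun m => exists_branch' H hμ hG (hθ m)
  have hβi : Function.Injective β := by
    intro m m' h
    apply hinj
    rw [hβ m, hβ m', h]
  exact hasLoops_of_angles H hμ hG hq hV two_pos (by
    rw [Real.sq_sqrt (by norm_num)]) p (fun _ => 1 / 4)
    (fun m k hk => cs_quarter hk) hβi hβ e f he hef hbe hbf

/-- there is nothing to prove for the empty family -/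
theorem hasLoops_zero (b : Fin 0 → ℂ) : HasLoops F b := by
  intro S hS
  obtain ⟨R, hR, hRS⟩ := ((Set.Ioi_infinite (1 : ℝ)).diff hS).nonempty
  exact ⟨R, fun l => l.elim0, hR, hRS, fun l => l.elim0, fun l => l.elim0, fun l => l.elim0,
    fun l => l.elim0, by simp⟩

section points

variable {h : ℕ} (b : Fin h → ℂ)

/-- the points `b`, `-b` -/
def pe : Fin (h + h) → ℂ := Fin.append b fun i => -b i

/-- the points `0`, `b`, `-b` -/
def po : Fin (h + h + 1) → ℂ := Fin.cons 0 (pe b)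

variable {b}

theorem pe_left (i : Fin h) : pe b (Fin.castAdd h i) = b i := Fin.append_left _ _ i

theorem pe_right (i : Fin h) : pe b (Fin.natAdd h i) = -b i := Fin.append_right _ _ i

theorem po_left (i : Fin h) : po b (Fin.castAdd h i).succ = b i := pe_left i

theorem po_right (i : Fin h) : po b (Fin.natAdd h i).succ = -b i := pe_right i

theorem pe_all {q : ℂ → Prop} (h1 : ∀ i, q (b i)) (h2 : ∀ i, q (-b i)) (j : Fin (h + h)) :
    q (pe b j) := by
  unfold pe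
  induction j using Fin.addCases with
  | left i =>
    rw [Fin.append_left]
    exact h1 i
  | right i =>
    rw [Fin.append_right]
    exact h2 i

theorem po_all {q : ℂ → Prop} (h0 : q 0) (h1 : ∀ i, q (b i)) (h2 : ∀ i, q (-b i))
    (j : Fin (h + h + 1)) : q (po b j) := by
  unfold po
  refine Fin.cases ?_ (fun j => ?_) j
  · exact h0
  · rw [Fin.cons_succ]
    exact pe_all h1 h2 j

theorem pe_inj (h0 : ∀ i, b i ≠ 0) (hb : ∀ i j, b i ^ 2 = b j ^ 2 → i = j) :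
    Function.Injective (pe b) := by
  unfold pe
  rw [Fin.append_injective_iff]
  refine ⟨fun i j hij => hb i j (by rw [hij]), fun i j hij => hb i j ?_, fun i j hij => ?_⟩
  · rw [neg_injective hij]
  · have h1 : i = j := hb i j (by rw [hij, neg_sq])
    rw [← h1] at hij
    exact h0 i (self_eq_neg.1 hij)

theorem po_inj (h0 : ∀ i, b i ≠ 0) (hb : ∀ i j, b i ^ 2 = b j ^ 2 → i = j) :
    Function.Injective (po b) := by
  unfold po
  rw [Fin.cons_injective_iff]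
  refine ⟨?_, pe_inj h0 hb⟩
  rintro ⟨j, hj⟩
  exact pe_all (q := fun y => y ≠ 0) h0 (fun i => neg_ne_zero.2 (h0 i)) j hj

end points

section criteria

variable {h : ℕ} {b : Fin h → ℂ}

/-- **L1, even degree.** -/
theorem sqrt_even (hdeg : F.natDegree = 2 * h)
    (hcrit : ∀ x : ℂ, (derivative F).eval x = 0 →
      3 * √2 < ‖F.eval x - 2‖ + ‖F.eval x + 2‖)
    (h1 : ∀ i, F.eval (b i) = 0) (h2 : ∀ i, F.eval (-b i) = 0) (h0 : ∀ i, b i ≠ 0)
    (hb : ∀ i j, b i ^ 2 = b j ^ 2 → i = j) : HasLoops F b := by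
  rcases Nat.eq_zero_or_pos h with rfl | hpos
  · exact hasLoops_zero b
  obtain ⟨g, hg⟩ : ∃ g, g + 1 = h + h := ⟨h + h - 1, by omega⟩
  refine crit_sqrt' (g := g) (by rw [hdeg]; omega) hcrit (fun m => pe b (Fin.cast hg m))
    (fun m => pe_all (q := fun y => F.eval y = 0) h1 h2 _)
    ((pe_inj h0 hb).comp (Fin.cast_injective hg))
    (fun i => Fin.cast hg.symm (Fin.castAdd h i)) (fun i => Fin.cast hg.symm (Fin.natAdd h i))
    ((Fin.cast_injective hg.symm).comp (Fin.castAdd_injective h h)) (fun i j hij => ?_)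
    (fun i => ?_) fun i => ?_
  · have h3 := congrArg Fin.val hij
    simp only [Fin.val_cast, Fin.val_castAdd, Fin.val_natAdd] at h3
    have := i.2
    omega
  · exact pe_left i
  · exact pe_right i

/-- **L1, odd degree.** -/
theorem sqrt_odd (hdeg : F.natDegree = 2 * h + 1)
    (hcrit : ∀ x : ℂ, (derivative F).eval x = 0 →
      3 * √2 < ‖F.eval x - 2‖ + ‖F.eval x + 2‖)
    (h00 : F.eval 0 = 0) (h1 : ∀ i, F.eval (b i) = 0) (h2 : ∀ i, F.eval (-b i) = 0)
    (h0 : ∀ i, b i ≠ 0) (hb : ∀ i j, b i ^ 2 = b j ^ 2 → i = j) : HasLoops F b := by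
  refine crit_sqrt' (g := h + h) (by rw [hdeg]; omega) hcrit (po b)
    (fun m => po_all (q := fun y => F.eval y = 0) h00 h1 h2 _) (po_inj h0 hb)
    (fun i => (Fin.castAdd h i).succ) (fun i => (Fin.natAdd h i).succ)
    ((Fin.succ_injective _).comp (Fin.castAdd_injective h h)) (fun i j hij => ?_)
    (fun i => ?_) fun i => ?_
  · have h3 := congrArg Fin.val (Fin.succ_injective _ hij)
    simp only [Fin.val_castAdd, Fin.val_natAdd] at h3
    have := i.2
    omega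
  · exact po_left i
  · exact po_right i

/-- the points `b`, `-b` lie in different components of the set where `F` is real in `[-2, 2]` -/
def Apart (F : ℂ[X]) (p : Set ℂ) : Prop :=
  ∀ x ∈ p, ∀ y ∈ p, x ≠ y →
    connectedComponentIn {x : ℂ | ∃ t : ℝ, |t| ≤ 2 ∧ F.eval x = t} x ≠
      connectedComponentIn {x : ℂ | ∃ t : ℝ, |t| ≤ 2 ∧ F.eval x = t} y

/-- **L2, even degree.** -/
theorem two_even (hdeg : F.natDegree = 2 * h)
    (hcrit : ∀ x : ℂ, (derivative F).eval x = 0 →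
      5 < ‖F.eval x - 2‖ + ‖F.eval x + 2‖)
    (h1 : ∀ i, ∃ ζ : ℂ, ‖ζ‖ = 1 ∧ F.eval (b i) = ζ + ζ⁻¹)
    (h2 : ∀ i, ∃ ζ : ℂ, ‖ζ‖ = 1 ∧ F.eval (-b i) = ζ + ζ⁻¹)
    (h0 : ∀ i, b i ≠ 0) (hb : ∀ i j, b i ^ 2 = b j ^ 2 → i = j)
    (ha : Apart F (Set.range b ∪ Set.range fun i => -b i)) : HasLoops F b := by
  rcases Nat.eq_zero_or_pos h with rfl | hpos
  · exact hasLoops_zero b
  obtain ⟨g, hg⟩ : ∃ g, g + 1 = h + h := ⟨h + h - 1, by omega⟩
  have hm : ∀ j, pe b j ∈ Set.range b ∪ Set.range fun i => -b i := fun j =>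
    pe_all (q := fun y => y ∈ Set.range b ∪ Set.range fun i => -b i) (fun i => Or.inl ⟨i, rfl⟩)
      (fun i => Or.inr ⟨i, rfl⟩) j
  refine crit_two' (g := g) (by rw [hdeg]; omega) hcrit (fun m => pe b (Fin.cast hg m))
    (fun m => pe_all (q := fun y => ∃ ζ : ℂ, ‖ζ‖ = 1 ∧ F.eval y = ζ + ζ⁻¹) h1 h2 _)
    (fun m m' hmm => ?_)
    (fun i => Fin.cast hg.symm (Fin.castAdd h i)) (fun i => Fin.cast hg.symm (Fin.natAdd h i))
    ((Fin.cast_injective hg.symm).comp (Fin.castAdd_injective h h)) (fun i j hij => ?_)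
    (fun i => ?_) fun i => ?_
  · by_contra hne
    refine ha _ (hm (Fin.cast hg m)) _ (hm (Fin.cast hg m')) (fun h3 => hne ?_) hmm
    exact Fin.cast_injective hg (pe_inj h0 hb h3)
  · have h3 := congrArg Fin.val hij
    simp only [Fin.val_cast, Fin.val_castAdd, Fin.val_natAdd] at h3
    have := i.2
    omega
  · exact pe_left i
  · exact pe_right i

/-- **L2, odd degree.** -/
theorem two_odd (hdeg : F.natDegree = 2 * h + 1)
    (hcrit : ∀ x : ℂ, (derivative F).eval x = 0 →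
      5 < ‖F.eval x - 2‖ + ‖F.eval x + 2‖)
    (h00 : ∃ ζ : ℂ, ‖ζ‖ = 1 ∧ F.eval 0 = ζ + ζ⁻¹)
    (h1 : ∀ i, ∃ ζ : ℂ, ‖ζ‖ = 1 ∧ F.eval (b i) = ζ + ζ⁻¹)
    (h2 : ∀ i, ∃ ζ : ℂ, ‖ζ‖ = 1 ∧ F.eval (-b i) = ζ + ζ⁻¹)
    (h0 : ∀ i, b i ≠ 0) (hb : ∀ i j, b i ^ 2 = b j ^ 2 → i = j)
    (ha : Apart F ({0} ∪ (Set.range b ∪ Set.range fun i => -b i))) : HasLoops F b := by
  have hm : ∀ j, po b j ∈ ({0} : Set ℂ) ∪ (Set.range b ∪ Set.range fun i => -b i) := fun j =>
    po_all (q := fun y => y ∈ ({0} : Set ℂ) ∪ (Set.range b ∪ Set.range fun i => -b i))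
      (Or.inl rfl) (fun i => Or.inr (Or.inl ⟨i, rfl⟩)) (fun i => Or.inr (Or.inr ⟨i, rfl⟩)) j
  refine crit_two' (g := h + h) (by rw [hdeg]; omega) hcrit (po b)
    (fun m => po_all (q := fun y => ∃ ζ : ℂ, ‖ζ‖ = 1 ∧ F.eval y = ζ + ζ⁻¹) h00 h1 h2 _)
    (fun m m' hmm => ?_)
    (fun i => (Fin.castAdd h i).succ) (fun i => (Fin.natAdd h i).succ)
    ((Fin.succ_injective _).comp (Fin.castAdd_injective h h)) (fun i j hij => ?_)
    (fun i => ?_) fun i => ?_
  · by_contra hne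
    exact ha _ (hm m) _ (hm m') (fun h3 => hne (po_inj h0 hb h3)) hmm
  · have h3 := congrArg Fin.val (Fin.succ_injective _ hij)
    simp only [Fin.val_castAdd, Fin.val_natAdd] at h3
    have := i.2
    omega
  · exact po_left i
  · exact po_right i

end criteria

end Pool.Agent.V5helper88.TQ
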