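import Mathlib
set_option autoImplicit false

/-!
# Nonzero minors of differences
-/

namespace Pool.Agent.V5helper88.TQ

/-- Linearly independent vectors have a nonzero maximal minor. -/
theorem exists_minor {g h : ℕ} (w : Fin h → Fin g → ℝ)
    (hw : ∀ c : Fin h → ℝ, (∀ l, ∑ i, c i * w i l = 0) → c = 0) :
    ∃ L : Fin h → Fin g, (Matrix.of fun l i => w i (L l)).det ≠ 0 := by
  have hli : LinearIndependent ℝ (Matrix.of w).row := by
    rw [Fintype.linearIndependent_iff]
    intro c hc i
    have h1 : c = 0 := hw c fun l => by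
      have h2 := congrFun hc l
      rw [Finset.sum_apply] at h2
      simpa using h2
    rw [h1]
    rfl
  have hfr : Module.finrank ℝ (Submodule.span ℝ (Set.range (Matrix.of w).col)) = h := by
    rw [← Matrix.rank_eq_finrank_span_cols, hli.rank_matrix, Fintype.card_fin]
  obtain ⟨f, hf1, -, hf3⟩ := Submodule.exists_fun_fin_finrank_span_eq ℝ
    (Set.range (Matrix.of w).col)
  choose L0 hL0 using hf1
  refine ⟨fun l => L0 (Fin.cast hfr.symm l), ?_⟩
  have h3 : LinearIndependent ℝ (Matrix.of fun l i => w i (L0 (Fin.cast hfr.symm l))).row := by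
    have h4 : (Matrix.of fun l i => w i (L0 (Fin.cast hfr.symm l))).row =
        fun l => f (Fin.cast hfr.symm l) := by
      funext l
      rw [← hL0]
      rfl
    rw [h4]
    exact hf3.comp _ (Fin.cast_injective _)
  exact ((Matrix.isUnit_iff_isUnit_det _).1 (Matrix.linearIndependent_rows_iff_isUnit.1 h3)).ne_zero

/-- From the square matrix of the differences `J (l + 1) (k + 1) - J (l + 1) 0` to a minor of the
matrix of the differences `J (l + 1) (e i) - J (l + 1) (f i)`. -/
theorem exists_minor_diff {g h : ℕ} (J : Fin (g + 1) → Fin (g + 1) → ℝ)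
    (hdet : (Matrix.of fun l k : Fin g => J l.succ k.succ - J l.succ 0).det ≠ 0)
    (e f : Fin h → Fin (g + 1)) (he : Function.Injective e) (hef : ∀ i j, e i ≠ f j) :
    ∃ L : Fin h → Fin (g + 1), (Matrix.of fun l i => J (L l) (e i) - J (L l) (f i)).det ≠ 0 := by
  suffices hw : ∀ c : Fin h → ℝ, (∀ l : Fin g, ∑ i, c i * (J l.succ (e i) - J l.succ (f i)) = 0) →
      c = 0 by
    obtain ⟨L, hL⟩ := exists_minor (fun i (l : Fin g) => J l.succ (e i) - J l.succ (f i)) hw
    exact ⟨fun l => (L l).succ, hL⟩
  intro c hc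
  set C : Fin (g + 1) → ℝ := fun k => ∑ i, c i * ((if e i = k then 1 else 0) -
    (if f i = k then 1 else 0)) with hC
  have h1 : ∀ a : Fin (g + 1) → ℝ, ∑ k, C k * a k = ∑ i, c i * (a (e i) - a (f i)) := by
    intro a
    simp only [hC, Finset.sum_mul]
    rw [Finset.sum_comm]
    refine Finset.sum_congr rfl fun i _ => ?_
    have : ∀ k, c i * ((if e i = k then (1 : ℝ) else 0) - (if f i = k then 1 else 0)) * a k =
        c i * ((if e i = k then a k else 0) - (if f i = k then a k else 0)) := by
      intro k
      split_ifs <;> ring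
    simp only [this]
    rw [← Finset.mul_sum, Finset.sum_sub_distrib, Finset.sum_ite_eq, Finset.sum_ite_eq]
    simp
  have h0 : C 0 + ∑ k : Fin g, C k.succ = 0 := by
    have h2 := h1 fun _ => 1
    rw [Fin.sum_univ_succ] at h2
    simpa using h2
  have h3 : (fun k : Fin g => C k.succ) = 0 := by
    refine Matrix.eq_zero_of_mulVec_eq_zero hdet ?_
    funext l
    rw [Matrix.mulVec, dotProduct]
    simp only [Matrix.of_apply, Pi.zero_apply]
    have h4 := (h1 fun k => J l.succ k).trans (hc l)
    rw [Fin.sum_univ_succ] at h4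
    have h5 : ∑ k : Fin g, (J l.succ k.succ - J l.succ 0) * C k.succ =
        ∑ k : Fin g, C k.succ * J l.succ k.succ - J l.succ 0 * ∑ k : Fin g, C k.succ := by
      rw [Finset.mul_sum, ← Finset.sum_sub_distrib]
      refine Finset.sum_congr rfl fun k _ => by ring
    rw [h5]
    linear_combination h4 - J l.succ 0 * h0
  have h6 : ∀ k, C k = 0 := by
    intro k
    refine Fin.cases ?_ (fun k => congrFun h3 k) k
    have : ∑ k : Fin g, C k.succ = 0 := Finset.sum_eq_zero fun k _ => congrFun h3 k
    rw [this, add_zero] at h0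
    exact h0
  funext i
  have h7 := h6 (e i)
  simp only [hC] at h7
  rw [Finset.sum_eq_single i] at h7
  · rw [if_pos rfl, if_neg fun h => hef i i h.symm] at h7
    simpa using h7
  · intro j _ hj
    rw [if_neg fun h => hj (he h), if_neg fun h => hef i j h.symm]
    ring
  · intro h
    exact absurd (Finset.mem_univ i) h

end Pool.Agent.V5helper88.TQ
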