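import Pool.Agent.N686.EL.IntRoots
import Pool.Agent.N686.EL.Loops
import Pool.Agent.V5helper83.EQ.LoopsDef
import Pool.Agent.V5helper88.TQ.Minor
set_option autoImplicit false

/-!
# Loops with generic radius
-/

namespace Pool.Agent.V5helper88.TQ

open Polynomial MeasureTheory Set

open Pool.Agent.TH826.MK (circ norm_circ contDiff_circ circ_add_one)

open Pool.Agent.TH826.UH (pr NZ nz_circ)

open Pool.Agent.Y775.CC

open Pool.Agent.N686.EL

open Pool.Agent.V5helper83.EQ (HasLoops)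

variable {F : ℂ[X]}

/-- the loops, from the determinant for all branches -/
theorem hasLoops_of_det {g h : ℕ} {G : ℂ[X]} {V : Set ℂ} {φ : Fin (g + 1) → ℂ → ℂ}
    (H : Branches G V φ) {μ : ℂ} (hμ : μ ≠ 0) (hG : ∀ x, F.eval (μ * x) = G.eval x)
    (p : Fin (g + 1) → ℂ) (β : Fin (g + 1) → Fin (g + 1)) (θ : Fin (g + 1) → ℝ)
    (hp : ∀ m, p m = μ * φ (β m) (uu 1 (θ m)))
    (hdet : (Matrix.of fun l k : Fin g => Jm φ l.succ (β k.succ) (θ k.succ) -
      Jm φ l.succ (β 0) (θ 0)).det ≠ 0)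
    {b : Fin h → ℂ} (e f : Fin h → Fin (g + 1)) (he : Function.Injective e)
    (hef : ∀ i j, e i ≠ f j) (hbe : ∀ i, p (e i) = b i) (hbf : ∀ i, p (f i) = -b i) :
    HasLoops F b := by
  intro S hS
  obtain ⟨R0, hR0, hV0⟩ := exists_radius' H.isOpen H.mem
  obtain ⟨R, ⟨hR, hRR⟩, hRS⟩ := ((Set.Ioc_infinite hR0).diff hS).nonempty
  have hV : ∀ z : ℂ, 1 ≤ ‖z‖ → ‖z‖ ≤ R → z + z⁻¹ ∈ V := fun z h1 h2 => hV0 z h1 (h2.trans hRR)
  have hRp : 0 < R := by linarith
  have hVR : ∀ t, uu R t ∈ V := uu_mem hR.le hV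
  obtain ⟨L, hL⟩ := exists_minor_diff (fun l k => Jm φ l (β k) (θ k)) hdet e f he hef
  have hne : ∀ l m t, μ * φ l (uu R t) ≠ p m := by
    intro l m t h
    rw [hp m] at h
    exact uu_ne hR _ _ (H.eq_of_eq (hVR t) (H.uu_mem _) (mul_left_cancel₀ hμ h)).2
  refine ⟨R, fun l t => μ * φ (L l) (uu R t), hR, hRS, fun l => ?_, fun l t => ?_, fun l t => ?_,
    fun l i t => ⟨?_, ?_⟩, ?_⟩
  · exact contDiff_const.mul (contDiff_branch_uu H hR hV (L l) hR.le le_rfl)
  · simp only [uu_add_one]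
  · have hev : F.eval (μ * φ (L l) (uu R t)) = uu R t := by
      rw [hG]
      exact H.eval_branch (L l) (hVR t)
    simp only
    rw [hev]
    have h1 : circ R t * (circ R t)⁻¹ = 1 := mul_inv_cancel₀ (circ_ne_zero hRp t)
    have h3 : uu R t = circ R t + (circ R t)⁻¹ := rfl
    rw [h3]
    linear_combination -h1
  · rw [← hbe]
    exact hne _ _ _
  · rw [← hbf]
    exact hne _ _ _
  · have e1 : (Matrix.of fun l i => pr (circ R) (fun t => μ * φ (L l) (uu R t) - b i) -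
        pr (circ R) (fun t => μ * φ (L l) (uu R t) + b i)) =
        (-(2 * Real.pi)) • Matrix.of fun l i => Jm φ (L l) (β (e i)) (θ (e i)) -
          Jm φ (L l) (β (f i)) (θ (f i)) := by
      ext l i
      rw [Matrix.of_apply, Matrix.smul_apply, Matrix.of_apply]
      have h1 : (fun t => μ * φ (L l) (uu R t) - b i) =
          fun t => μ * φ (L l) (uu R t) - μ * φ (β (e i)) (uu 1 (θ (e i))) := by
        funext t
        rw [← hp, hbe]
      have h2 : (fun t => μ * φ (L l) (uu R t) + b i) =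
          fun t => μ * φ (L l) (uu R t) - μ * φ (β (f i)) (uu 1 (θ (f i))) := by
        funext t
        rw [← hp, hbf, sub_neg_eq_add]
      rw [h1, h2, pr_loop_mul H hR hV _ _ _ hμ, pr_loop_mul H hR hV _ _ _ hμ, smul_eq_mul]
      ring
    rw [e1, Matrix.det_smul]
    exact mul_ne_zero (pow_ne_zero _ (neg_ne_zero.2 (by positivity))) hL

/-- the loops for given angles -/
theorem hasLoops_of_angles {g h : ℕ} {G : ℂ[X]} {V : Set ℂ} {φ : Fin (g + 1) → ℂ → ℂ}
    (H : Branches G V φ) {μ : ℂ} (hμ : μ ≠ 0) (hG : ∀ x, F.eval (μ * x) = G.eval x)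
    {q : ℝ} (hq : 1 < q) (hV : ∀ z : ℂ, 1 ≤ ‖z‖ → ‖z‖ ≤ q → z + z⁻¹ ∈ V) {D : ℕ} (hD : 0 < D)
    (hqD : 2 ≤ q ^ D) (p : Fin (g + 1) → ℂ) (θ : Fin (g + 1) → ℝ)
    (h0 : ∀ m k, ¬ D ∣ k → cs k (θ m) = 0) {β : Fin (g + 1) → Fin (g + 1)}
    (hβ : Function.Injective β) (hp : ∀ m, p m = μ * φ (β m) (uu 1 (θ m)))
    {b : Fin h → ℂ} (e f : Fin h → Fin (g + 1)) (he : Function.Injective e)
    (hef : ∀ i j, e i ≠ f j) (hbe : ∀ i, p (e i) = b i) (hbf : ∀ i, p (f i) = -b i) :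
    HasLoops F b := by
  have hbij : Function.Bijective β := Finite.injective_iff_bijective.1 hβ
  set E : Fin (g + 1) ≃ Fin (g + 1) := Equiv.ofBijective β hbij with hE
  have heβ : ∀ m, E.symm (β m) = m := fun m => E.symm_apply_apply m
  have h := det_ne_zero H (ψ := fun j => θ (E.symm j)) (fun c hc hc0 =>
    neg_single H hq hV hD hqD (fun j => θ (E.symm j)) (fun i k hk => h0 _ k hk) c hc hc0) hβ
  simp only [heβ] at h
  exact hasLoops_of_det H hμ hG p β θ hp h e f he hef hbe hbf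

end Pool.Agent.V5helper88.TQ
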